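import Mathlib

set_option autoImplicit false

namespace Pool.Agent.H.MP_090ff9_an

open Finset Filter Topology MeasureTheory

lemma ham_count (n : ℕ) (w : Fin n → Bool) :
    (((univ : Finset (Fin n → Bool)).filter
      (fun w' => 10 * (univ.filter (fun i => w i ≠ w' i)).card ≤ n)).card : ℝ) ≤ (3 / 2) ^ n := by
  set q : ℝ := (7 / 8) ^ 10 with hq
  have hq0 : 0 ≤ q := by positivity
  have h1 : ∑ w' : Fin n → Bool, ∏ i, (if w i ≠ w' i then q else 1) = (1 + q) ^ n := by
    have := Finset.prod_univ_sum (fun _ : Fin n => (univ : Finset Bool))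
      (fun i b => if w i ≠ b then q else 1)
    rw [Fintype.piFinset_univ] at this
    rw [← this]
    have h2 : ∀ i, ∑ b : Bool, (if w i ≠ b then q else 1) = 1 + q := by
      intro i
      cases w i <;> simp [add_comm]
    simp only [h2, prod_const, card_univ, Fintype.card_fin]
  have h2 : (((univ : Finset (Fin n → Bool)).filter
      (fun w' => 10 * (univ.filter (fun i => w i ≠ w' i)).card ≤ n)).card : ℝ) * (7 / 8) ^ n ≤
      (1 + q) ^ n := by
    rw [← h1, ← nsmul_eq_mul, ← sum_const]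
    refine le_trans (sum_le_sum (g := fun w' => ∏ i, (if w i ≠ w' i then q else 1)) ?_)
      (sum_le_sum_of_subset_of_nonneg (filter_subset _ _) ?_)
    · intro w' hw'
      rw [mem_filter] at hw'
      rw [prod_ite, prod_const_one, mul_one, prod_const, hq, ← pow_mul]
      exact pow_le_pow_of_le_one (by norm_num) (by norm_num) hw'.2
    · intro w' _ _
      exact prod_nonneg (fun i _ => by split_ifs <;> positivity)
  have h3 : (1 + q) ^ n ≤ (3 / 2) ^ n * (7 / 8) ^ n := by
    rw [← mul_pow]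
    apply pow_le_pow_left₀ (by positivity)
    rw [hq]; norm_num
  exact le_of_mul_le_mul_right (h2.trans h3) (by positivity)

lemma sum_blocks (g : ℕ → ℝ) (L n : ℕ) :
    ∑ j ∈ range (n * L), g j = ∑ k ∈ range n, ∑ i ∈ range L, g (k * L + i) := by
  induction n with
  | zero => simp
  | succ n ih => rw [Nat.succ_mul, sum_range_add, ih, sum_range_succ]

lemma count_dvd (L k n : ℕ) :
    ∑ i ∈ range n, (if L ∣ k + i + 1 then (1 : ℝ) else 0) =
      (((k + n) / L : ℕ) : ℝ) - ((k / L : ℕ) : ℝ) := by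
  induction n with
  | zero => simp
  | succ n ih =>
    rw [sum_range_succ, ih, ← add_assoc, Nat.succ_div]
    split_ifs <;> push_cast <;> ring

variable {X : Type*} [MetricSpace X]

def P (f : X → X) (L : ℕ) (z : ℕ → X) (j : ℕ) : X := f^[j % L] (z (j / L))

omit [MetricSpace X] in
lemma P_block (f : X → X) {L : ℕ} (z : ℕ → X) (k : ℕ) {i : ℕ} (hi : i < L) :
    P f L z (k * L + i) = f^[i] (z k) := by
  unfold P
  have hL : 0 < L := by omega
  rw [Nat.mul_add_mod_of_lt hi, add_comm, Nat.add_mul_div_right _ _ hL, Nat.div_eq_of_lt hi,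
    zero_add]

omit [MetricSpace X] in
lemma P_succ (f : X → X) {L : ℕ} (z : ℕ → X) {t : ℕ} (h : ¬ L ∣ t + 1) :
    P f L z (t + 1) = f (P f L z t) := by
  unfold P
  have h1 : (t + 1) / L = t / L := Nat.succ_div_of_not_dvd h
  have h2 : (t + 1) % L = t % L + 1 := by
    have a := Nat.div_add_mod (t + 1) L
    have b := Nat.div_add_mod t L
    rw [h1] at a
    omega
  rw [h1, h2, Function.iterate_succ_apply']

def S (f : X → X) : Prop :=
  ∀ ε : ℝ, 0 < ε → ∃ L : ℕ, 1 ≤ L ∧ ∃ n0 : ℕ, ∀ n : ℕ, n0 ≤ n → ∀ z : ℕ → X, ∃ y : X,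
    ∑ j ∈ range (n * L), dist (f^[j] y) (P f L z j) ≤ ε * (n * L)

lemma entropy_pos {f : X → X} (hS : S f) {c : ℝ} (hc : 0 < c)
    (hp : ∀ L : ℕ, ∃ u v : X, c * L ≤ ∑ i ∈ range L, dist (f^[i] u) (f^[i] v)) :
    0 < Dynamics.coverEntropy f Set.univ := by
  classical
  obtain ⟨L, hL, n0, hn⟩ := hS (c / 40) (by positivity)
  obtain ⟨u, v, huv⟩ := hp L
  have hLr : (0 : ℝ) < L := by exact_mod_cast hL
  set U : SetRel X X := {p : X × X | dist p.1 p.2 < c / 40} with hU
  have hUm : U ∈ uniformity X := Metric.dist_mem_uniformity (by positivity)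
  have key : ∀ n, n0 ≤ n → 1 ≤ n → ∀ s : Finset X, Dynamics.IsDynCoverOf f Set.univ U (n * L) s →
      (4 / 3 : ℝ) ^ n ≤ s.card := by
    intro n hn0 hn1 s hs
    let z : (Fin n → Bool) → ℕ → X := fun w k => if h : k < n then (if w ⟨k, h⟩ then u else v) else u
    choose y hy using fun w => hn n hn0 (z w)
    choose φ hφ1 hφ2 using fun w => hs (Set.mem_univ (y w))
    have hφ : ∀ w, ∀ j < n * L, dist (f^[j] (y w)) (f^[j] (φ w)) < c / 40 :=
      fun w => Dynamics.mem_dynEntourage.1 (hφ2 w)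
    have hham : ∀ w w', φ w = φ w' → 10 * (univ.filter (fun i => w i ≠ w' i)).card ≤ n := by
      intro w w' h
      have a1 : ∑ j ∈ range (n * L), dist (P f L (z w) j) (P f L (z w') j) ≤ c / 10 * (n * L) := by
        have b1 : ∀ j ∈ range (n * L), dist (P f L (z w) j) (P f L (z w') j) ≤
            dist (f^[j] (y w)) (P f L (z w) j) + dist (f^[j] (y w')) (P f L (z w') j) + c / 20 := by
          intro j hj
          rw [mem_range] at hj
          have c1 := hφ w j hj
          have c2 := hφ w' j hj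
          rw [← h] at c2
          have c3 := dist_triangle4 (P f L (z w) j) (f^[j] (y w)) (f^[j] (y w')) (P f L (z w') j)
          have c4 := dist_triangle_right (f^[j] (y w)) (f^[j] (y w')) (f^[j] (φ w))
          rw [dist_comm (P f L (z w) j) (f^[j] (y w))] at c3
          linarith
        refine (sum_le_sum b1).trans ?_
        rw [sum_add_distrib, sum_add_distrib, sum_const, card_range, nsmul_eq_mul]
        have := hy w
        have := hy w'
        push_cast
        linarith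
      have a2 : ((univ.filter (fun i => w i ≠ w' i)).card : ℝ) * (c * L) ≤
          ∑ j ∈ range (n * L), dist (P f L (z w) j) (P f L (z w') j) := by
        rw [sum_blocks, sum_range, ← nsmul_eq_mul, ← sum_const]
        refine le_trans (sum_le_sum (g := fun k : Fin n => ∑ i ∈ range L,
          dist (P f L (z w) (k * L + i)) (P f L (z w') (k * L + i))) ?_)
          (sum_le_sum_of_subset_of_nonneg (filter_subset _ _)
            (fun _ _ _ => sum_nonneg (fun _ _ => dist_nonneg)))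
        intro k hk
        rw [mem_filter] at hk
        refine huv.trans (le_of_eq (sum_congr rfl (fun i hi => ?_)))
        rw [mem_range] at hi
        rw [P_block f _ _ hi, P_block f _ _ hi]
        have hk2 := hk.2
        simp only [z, k.2, dif_pos, Fin.eta]
        cases h1 : w k <;> cases h2 : w' k <;> simp [h1, h2] at hk2 ⊢
        exact dist_comm _ _
      have a3 : ((univ.filter (fun i => w i ≠ w' i)).card : ℝ) * (c * L) ≤ n / 10 * (c * L) := by
        linarith
      have a4 := le_of_mul_le_mul_right a3 (by positivity)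
      have a5 : 10 * ((univ.filter (fun i => w i ≠ w' i)).card : ℝ) ≤ n := by linarith
      exact_mod_cast a5
    have hfib : ∀ b ∈ s, ((univ.filter (fun w => φ w = b)).card : ℝ) ≤ (3 / 2) ^ n := by
      intro b _
      rcases (univ.filter (fun w => φ w = b)).eq_empty_or_nonempty with h | ⟨w, hw⟩
      · rw [h]; simp only [card_empty, Nat.cast_zero]; positivity
      · refine le_trans ?_ (ham_count n w)
        apply Nat.cast_le.2
        apply card_le_card
        intro w' hw'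
        rw [mem_filter] at hw hw' ⊢
        exact ⟨mem_univ _, hham w w' (hw.2.trans hw'.2.symm)⟩
    have hc1 := card_eq_sum_card_fiberwise (s := (univ : Finset (Fin n → Bool))) (t := s) (f := φ)
      (fun w _ => hφ1 w)
    have hc2 : ((2 : ℝ)) ^ n ≤ s.card * (3 / 2) ^ n := by
      have : ((univ : Finset (Fin n → Bool)).card : ℝ) = 2 ^ n := by simp
      rw [← this, hc1, Nat.cast_sum, ← nsmul_eq_mul, ← sum_const]
      exact sum_le_sum hfib
    have hc3 : (4 / 3 : ℝ) ^ n * (3 / 2) ^ n = 2 ^ n := by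
      rw [← mul_pow]; norm_num
    rw [← hc3] at hc2
    exact le_of_mul_le_mul_right hc2 (by positivity)
  set a : ℝ := Real.log (4 / 3) / L with ha
  have ha0 : 0 < a := div_pos (Real.log_pos (by norm_num)) hLr
  refine lt_of_lt_of_le ?_ (Dynamics.coverEntropyEntourage_le_coverEntropy f Set.univ hUm)
  refine lt_of_lt_of_le (EReal.coe_pos.2 ha0) ?_
  apply Frequently.le_expGrowthSup
  rw [frequently_atTop]
  intro m
  refine ⟨(m + n0 + 1) * L, ?_, ?_⟩
  · nlinarith
  · have e : EReal.exp ((a : EReal) * (((m + n0 + 1) * L : ℕ) : EReal)) =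
        ENNReal.ofReal ((4 / 3 : ℝ) ^ (m + n0 + 1)) := by
      rw [← EReal.coe_natCast, ← EReal.coe_mul, EReal.exp_coe]
      congr 1
      have : a * (((m + n0 + 1) * L : ℕ) : ℝ) = ((m + n0 + 1 : ℕ) : ℝ) * Real.log (4 / 3) := by
        rw [ha]; push_cast; field_simp
      rw [this, Real.exp_nat_mul, Real.exp_log (by norm_num)]
    rw [e]
    unfold Dynamics.coverMincard
    simp only [ENat.toENNReal_iInf]
    refine le_iInf₂ (fun s hs => ?_)
    have := key (m + n0 + 1) (by omega) (by omega) s hs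
    simpa using ENNReal.ofReal_le_ofReal this

lemma exists_block {s : ℕ → ℕ} (h0 : s 0 = 0) (hs : StrictMono s) (j : ℕ) :
    ∃ k, s k ≤ j ∧ j < s (k + 1) := by
  classical
  have hex : ∃ k, j < s (k + 1) := ⟨j, lt_of_lt_of_le (Nat.lt_succ_self j) (hs.id_le (j + 1))⟩
  refine ⟨Nat.find hex, ?_, Nat.find_spec hex⟩
  rcases Nat.eq_zero_or_pos (Nat.find hex) with h | h
  · rw [h, h0]; exact Nat.zero_le _
  · have := Nat.find_min hex (m := Nat.find hex - 1) (by omega)
    rw [Nat.sub_add_cancel h] at this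
    omega

lemma concat {f : X → X} (L : ℕ → ℕ) (hL : ∀ k, 1 ≤ L k) {ε D : ℝ} (hε : 0 < ε)
    (hD : ∀ a b : X, dist a b ≤ D)
    (hbad : ∀ k s : ℕ, ∃ n : ℕ, s + 1 ≤ n ∧ ∃ z : ℕ → X, ∀ y : X,
      ε * (n * L k) < ∑ j ∈ range (n * L k), dist (f^[j] y) (P f (L k) z j)) :
    ∃ (x : ℕ → X) (s : ℕ → ℕ), s 0 = 0 ∧ StrictMono s ∧ (∀ k, L k ∣ s (k + 1) - s k) ∧
      (∀ k t, s k + t < s (k + 1) →
        dist (f (x (s k + t))) (x (s k + t + 1)) ≤ D * (if L k ∣ t + 1 then 1 else 0)) ∧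
      ∀ y k, ε / 2 * s (k + 1) < ∑ j ∈ range (s (k + 1)), dist (f^[j] y) (x j) := by
  choose N hN Z hZ using hbad
  obtain ⟨s, h0, hS⟩ : ∃ s : ℕ → ℕ, s 0 = 0 ∧ ∀ k, s (k + 1) = s k + N k (s k) * L k :=
    ⟨fun k => Nat.rec 0 (fun k sk => sk + N k sk * L k) k, rfl, fun _ => rfl⟩
  have hge : ∀ k, s k + 1 ≤ N k (s k) * L k := fun k => by
    have := hN k (s k)
    have := hL k
    nlinarith
  have hs : StrictMono s := strictMono_nat_of_lt_succ (fun k => by
    have := hge k
    rw [hS]; omega)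
  choose κ hκ1 hκ2 using exists_block h0 hs
  have hκ : ∀ k j, s k ≤ j → j < s (k + 1) → κ j = k := by
    intro k j h1 h2
    have a1 : k < κ j + 1 := hs.lt_iff_lt.1 (h1.trans_lt (hκ2 j))
    have a2 : κ j < k + 1 := hs.lt_iff_lt.1 ((hκ1 j).trans_lt h2)
    omega
  obtain ⟨x, hx⟩ : ∃ x : ℕ → X, ∀ k t, s k + t < s (k + 1) →
      x (s k + t) = P f (L k) (Z k (s k)) t := by
    refine ⟨fun j => P f (L (κ j)) (Z (κ j) (s (κ j))) (j - s (κ j)), fun k t h => ?_⟩
    simp only [hκ k (s k + t) (Nat.le_add_right _ _) h, Nat.add_sub_cancel_left]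
  refine ⟨x, s, h0, hs, fun k => ?_, fun k t h => ?_, fun y k => ?_⟩
  · rw [hS, Nat.add_sub_cancel_left]; exact Dvd.intro_left _ rfl
  · split_ifs with hd
    · rw [mul_one]; exact hD _ _
    · have h2 : s k + (t + 1) < s (k + 1) := by
        rcases Nat.lt_or_ge (s k + (t + 1)) (s (k + 1)) with h3 | h3
        · exact h3
        · exfalso
          apply hd
          have : t + 1 = N k (s k) * L k := by rw [hS] at h h3; omega
          rw [this]; exact Dvd.intro_left _ rfl
      rw [add_assoc, hx k t h, hx k (t + 1) h2, P_succ f _ hd]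
      simp
  · have h1 := hZ k (s k) (f^[s k] y)
    have h2 : ∑ j ∈ range (N k (s k) * L k), dist (f^[j] (f^[s k] y)) (P f (L k) (Z k (s k)) j) ≤
        ∑ j ∈ range (s (k + 1)), dist (f^[j] y) (x j) := by
      rw [hS, sum_range_add]
      refine le_add_of_nonneg_of_le (sum_nonneg (fun _ _ => dist_nonneg)) (le_of_eq ?_)
      refine sum_congr rfl (fun j hj => ?_)
      rw [mem_range] at hj
      rw [hx k j (by rw [hS]; omega), add_comm (s k) j, Function.iterate_add_apply]
    have h3 : ((s (k + 1) : ℕ) : ℝ) ≤ 2 * (N k (s k) * L k) := by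
      have := hge k
      have h4 : s (k + 1) ≤ 2 * (N k (s k) * L k) := by rw [hS]; omega
      exact_mod_cast h4
    nlinarith

lemma bad_of_not {f : X → X} (h : ¬ S f) : ∃ ε : ℝ, 0 < ε ∧ ∀ L : ℕ, 1 ≤ L → ∀ s : ℕ,
    ∃ n : ℕ, s + 1 ≤ n ∧ ∃ z : ℕ → X, ∀ y : X,
      ε * (n * L) < ∑ j ∈ range (n * L), dist (f^[j] y) (P f L z j) := by
  unfold S at h
  push Not at h
  obtain ⟨ε, hε, h⟩ := h
  exact ⟨ε, hε, fun L hL s => h L hL (s + 1)⟩

def ASP (f : X → X) : Prop :=
  ∀ ε : ℝ, 0 < ε → ∃ δ : ℝ, 0 < δ ∧ ∀ x : ℕ → X,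
    (∃ N : ℕ, ∀ n : ℕ, N ≤ n → ∀ k : ℕ,
      (1 / n : ℝ) * ∑ i ∈ range n, dist (f (x (i + k))) (x (i + k + 1)) < δ) →
    ∃ y : X, limsup (fun n : ℕ => (1 / n : ℝ) * ∑ i ∈ range n, dist (f^[i] y) (x i)) atTop < ε

def AASP (f : X → X) : Prop :=
  ∀ x : ℕ → X,
    Tendsto (fun n : ℕ => (1 / n : ℝ) * ∑ i ∈ range n, dist (f (x i)) (x (i + 1))) atTop (𝓝 0) →
    ∃ y : X, Tendsto (fun n : ℕ => (1 / n : ℝ) * ∑ i ∈ range n, dist (f^[i] y) (x i)) atTop (𝓝 0)

def AlmostSpec (f : X → X) : Prop :=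
  ∃ (ε₀ : ℝ) (g : ℕ → ℝ → ℕ) (κ : ℝ → ℕ), 0 < ε₀ ∧
    (∀ ε, 0 < ε → ∀ n, 1 ≤ n → g n ε ≤ g (n + 1) ε) ∧
    (∀ ε, 0 < ε → Tendsto (fun n : ℕ => (g n ε : ℝ) / n) atTop (𝓝 0)) ∧
    (∀ ε, ε₀ < ε → ∀ n, g n ε = g n ε₀) ∧
    (∀ ε, 0 < ε → ∀ n, 1 ≤ n → κ ε ≤ n → g n ε < n) ∧
    ∀ m : ℕ, 1 ≤ m → ∀ (ε : ℕ → ℝ) (x : ℕ → X) (n : ℕ → ℕ),
      (∀ j < m, 0 < ε j ∧ κ (ε j) ≤ n j) →
      ∃ z : X, ∀ j < m, ∃ Λ ⊆ range (n j), n j ≤ Λ.card + g (n j) (ε j) ∧
        ∀ i ∈ Λ, dist (f^[i] (x j)) (f^[i] (f^[∑ l ∈ range j, n l] z)) < ε j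

lemma final_contra {f : X → X} {x : ℕ → X} {s : ℕ → ℕ} (hs : StrictMono s) {ε : ℝ} {y : X}
    (h1 : ∀ k, ε * s (k + 1) < ∑ j ∈ range (s (k + 1)), dist (f^[j] y) (x j))
    (h2 : ∀ᶠ n : ℕ in atTop, (1 / n : ℝ) * ∑ i ∈ range n, dist (f^[i] y) (x i) < ε) : False := by
  obtain ⟨N, hN⟩ := eventually_atTop.1 h2
  have a1 : N + 1 ≤ s (N + 1) := hs.id_le (N + 1)
  have a2 := hN (s (N + 1)) (by omega)
  have a3 := h1 N
  have a4 : (0 : ℝ) < s (N + 1) := by exact_mod_cast (by omega : 0 < s (N + 1))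
  rw [one_div, inv_mul_lt_iff₀ a4] at a2
  linarith

lemma S_of_ASP {f : X → X} {D : ℝ} (hD0 : 0 < D) (hD : ∀ a b : X, dist a b ≤ D) (h : ASP f) :
    S f := by
  by_contra hc
  obtain ⟨ε, hε, hb⟩ := bad_of_not hc
  obtain ⟨δ, hδ, h⟩ := h (ε / 2) (by positivity)
  obtain ⟨L, hL⟩ := exists_nat_gt (2 * D / δ)
  have hLr : (0 : ℝ) < L := lt_trans (by positivity) hL
  have hL1 : 1 ≤ L := by exact_mod_cast hLr
  obtain ⟨x, s, h0, hs, hdv, hj, hy⟩ := concat (f := f) (fun _ => L) (fun _ => hL1) hε hD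
    (fun _ s => hb L hL1 s)
  have hdv2 : ∀ k, L ∣ s k := by
    intro k
    induction k with
    | zero => rw [h0]; exact dvd_zero _
    | succ k ih =>
      have := Dvd.dvd.add ih (hdv k)
      rwa [Nat.add_sub_cancel' (hs.monotone (Nat.le_succ k))] at this
  have hj2 : ∀ j, dist (f (x j)) (x (j + 1)) ≤ D * (if L ∣ j + 1 then 1 else 0) := by
    intro j
    obtain ⟨k, h1, h2⟩ := exists_block h0 hs j
    obtain ⟨t, rfl⟩ := Nat.exists_eq_add_of_le h1
    have := hj k t h2
    have e : (L ∣ s k + t + 1) ↔ (L ∣ t + 1) := by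
      rw [add_assoc]; exact (Nat.dvd_add_iff_right (hdv2 k)).symm
    simp only [e]
    exact this
  obtain ⟨y, hy2⟩ := h x ⟨L, fun n hn k => by
    have hn0 : (0 : ℝ) < n := by exact_mod_cast (by omega : 0 < n)
    have hnL : (L : ℝ) ≤ n := by exact_mod_cast hn
    have a1 : ∑ i ∈ range n, dist (f (x (i + k))) (x (i + k + 1)) ≤
        D * ∑ i ∈ range n, (if L ∣ k + i + 1 then (1 : ℝ) else 0) := by
      rw [mul_sum]
      refine sum_le_sum (fun i _ => ?_)
      rw [add_comm k i]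
      exact hj2 _
    rw [count_dvd] at a1
    have a2 : (((k + n) / L : ℕ) : ℝ) ≤ (k + n) / L := by
      have := Nat.cast_div_le (α := ℝ) (m := k + n) (n := L)
      push_cast at this
      exact this
    have a3 : (k : ℝ) / L ≤ ((k / L : ℕ) : ℝ) + 1 := by
      rw [div_le_iff₀ hLr]
      have := Nat.lt_div_mul_add (a := k) (b := L) (by omega)
      have h5 : (k : ℝ) < ((k / L : ℕ) : ℝ) * L + L := by exact_mod_cast this
      linarith
    have a4 : (((k + n) / L : ℕ) : ℝ) - ((k / L : ℕ) : ℝ) ≤ 2 * (n / L) := by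
      have : (1 : ℝ) ≤ n / L := by rw [le_div_iff₀ hLr]; linarith
      rw [add_div] at a2
      linarith
    rw [one_div, inv_mul_lt_iff₀ hn0]
    have a5 : D * (2 * (n / L)) < n * δ := by
      rw [div_lt_iff₀ hδ] at hL
      have : D * (2 * (n / L)) = n * (2 * D / L) := by ring
      rw [this]
      apply mul_lt_mul_of_pos_left _ hn0
      rw [div_lt_iff₀ hLr]; linarith
    have a6 := mul_le_mul_of_nonneg_left a4 hD0.le
    linarith⟩
  refine final_contra hs (hy y) (eventually_lt_of_limsup_lt hy2 ?_)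
  refine isBoundedUnder_of ⟨D, fun n => ?_⟩
  rcases Nat.eq_zero_or_pos n with rfl | hn
  · simp [hD0.le]
  · have hn0 : (0 : ℝ) < n := by exact_mod_cast hn
    rw [one_div, inv_mul_le_iff₀ hn0]
    refine (sum_le_sum (fun i _ => hD _ _)).trans ?_
    simp

lemma S_of_AASP {f : X → X} {D : ℝ} (hD0 : 0 < D) (hD : ∀ a b : X, dist a b ≤ D) (h : AASP f) :
    S f := by
  by_contra hc
  obtain ⟨ε, hε, hb⟩ := bad_of_not hc
  obtain ⟨x, s, h0, hs, -, hj, hy⟩ := concat (f := f) (fun k => k + 1) (fun _ => by omega) hε hD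
    (fun k s => by simpa using hb (k + 1) (by omega) s)
  have hin : ∀ K k t : ℕ, K ≤ k → s k + t ≤ s (k + 1) →
      ∑ i ∈ range t, dist (f (x (s k + i))) (x (s k + i + 1)) ≤ D * (t / (K + 1)) := by
    intro K k t hK ht
    have a1 : ∑ i ∈ range t, dist (f (x (s k + i))) (x (s k + i + 1)) ≤
        D * ∑ i ∈ range t, (if k + 1 ∣ 0 + i + 1 then (1 : ℝ) else 0) := by
      rw [mul_sum]
      refine sum_le_sum (fun i hi => ?_)
      rw [mem_range] at hi
      rw [zero_add]
      exact hj k i (by omega)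
    rw [count_dvd] at a1
    refine a1.trans (mul_le_mul_of_nonneg_left ?_ hD0.le)
    have a2 := Nat.cast_div_le (α := ℝ) (m := t) (n := k + 1)
    have a3 : (t : ℝ) / ((k + 1 : ℕ) : ℝ) ≤ t / (K + 1) := by
      apply div_le_div_of_nonneg_left (by positivity) (by positivity)
      exact_mod_cast Nat.succ_le_succ hK
    simp only [zero_add, Nat.zero_div, Nat.cast_zero, sub_zero]
    linarith
  have hQ : ∀ K k : ℕ, K ≤ k → ∑ j ∈ range (s k), dist (f (x j)) (x (j + 1)) ≤
      D * s K + D * (s k / (K + 1)) := by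
    intro K k hK
    induction k, hK using Nat.le_induction with
    | base =>
      refine le_add_of_le_of_nonneg ((sum_le_sum (fun i _ => hD _ _)).trans ?_) (by positivity)
      simp [mul_comm]
    | succ k hk ih =>
      obtain ⟨t, ht⟩ := Nat.exists_eq_add_of_le (hs.monotone (Nat.le_succ k))
      have := hin K k t hk ht.ge
      rw [ht, sum_range_add]
      push_cast
      rw [add_div, mul_add]
      linarith
  have hR : ∀ K n : ℕ, s K ≤ n → ∑ j ∈ range n, dist (f (x j)) (x (j + 1)) ≤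
      D * s K + D * (n / (K + 1)) := by
    intro K n hn
    obtain ⟨k, h1, h2⟩ := exists_block h0 hs n
    have hK : K < k + 1 := hs.lt_iff_lt.1 (hn.trans_lt h2)
    obtain ⟨t, rfl⟩ := Nat.exists_eq_add_of_le h1
    have a1 := hin K k t (by omega) h2.le
    have a2 := hQ K k (by omega)
    rw [sum_range_add]
    push_cast
    rw [add_div, mul_add]
    linarith
  obtain ⟨y, hy2⟩ := h x (by
    rw [Metric.tendsto_atTop]
    intro η hη
    obtain ⟨K, hK⟩ := exists_nat_gt (2 * D / η)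
    obtain ⟨M, hM⟩ := exists_nat_gt (2 * (D * s K) / η)
    refine ⟨s K + M + 1, fun n hn => ?_⟩
    have hn0 : (0 : ℝ) < n := by exact_mod_cast (by omega : 0 < n)
    have hnM : (M : ℝ) ≤ n := by exact_mod_cast (by omega : M ≤ n)
    rw [Real.dist_eq, sub_zero, abs_of_nonneg
      (mul_nonneg (by positivity) (sum_nonneg (fun _ _ => dist_nonneg))), one_div,
      inv_mul_lt_iff₀ hn0]
    refine (hR K n (by omega)).trans_lt ?_
    rw [div_lt_iff₀ hη] at hK hM
    have a1 : D * (n / (K + 1)) ≤ n * (η / 2) := by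
      have : D * (n / (K + 1)) = n * (D / (K + 1)) := by ring
      rw [this]
      apply mul_le_mul_of_nonneg_left _ hn0.le
      rw [div_le_iff₀ (by positivity)]
      nlinarith
    nlinarith)
  exact final_contra hs (hy y) (hy2.eventually (gt_mem_nhds (by positivity)))

lemma S_of_AS {f : X → X} {D : ℝ} (hD0 : 0 < D) (hD : ∀ a b : X, dist a b ≤ D)
    (h : AlmostSpec f) : S f := by
  classical
  obtain ⟨ε₀, g, κ, -, -, hg, -, -, h⟩ := h
  intro ε hε
  have h1 := (hg (ε / 2) (by positivity)).eventually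
    (gt_mem_nhds (by positivity : (0 : ℝ) < ε / 2 / D))
  obtain ⟨N, hN⟩ := eventually_atTop.1 h1
  set L := N + κ (ε / 2) + 1 with hL
  have hLr : (0 : ℝ) < L := by exact_mod_cast (by omega : 0 < L)
  have hgL := hN L (by omega)
  rw [div_lt_div_iff₀ hLr hD0] at hgL
  refine ⟨L, by omega, 1, fun n hn z => ?_⟩
  obtain ⟨y, hy⟩ := h n hn (fun _ => ε / 2) z (fun _ => L) (fun _ _ => ⟨by positivity, by omega⟩)
  refine ⟨y, ?_⟩
  rw [sum_blocks]
  have : ε * (n * L) = ∑ _k ∈ range n, ε * L := by simp; ring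
  rw [this]
  refine sum_le_sum (fun k hk => ?_)
  obtain ⟨Λ, hΛ1, hΛ2, hΛ3⟩ := hy k (mem_range.1 hk)
  simp only [sum_const, card_range, smul_eq_mul] at hΛ3
  rw [← sum_sdiff hΛ1]
  have a1 : ∑ i ∈ range L \ Λ, dist (f^[k * L + i] y) (P f L z (k * L + i)) ≤ g L (ε / 2) * D := by
    refine (sum_le_sum (fun i _ => hD _ _)).trans ?_
    rw [sum_const, nsmul_eq_mul]
    apply mul_le_mul_of_nonneg_right _ hD0.le
    apply Nat.cast_le.2
    rw [card_sdiff_of_subset hΛ1, card_range]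
    omega
  have a2 : ∑ i ∈ Λ, dist (f^[k * L + i] y) (P f L z (k * L + i)) ≤ ε / 2 * L := by
    refine (sum_le_sum (g := fun _ => ε / 2) (fun i hi => ?_)).trans ?_
    · rw [P_block f _ _ (mem_range.1 (hΛ1 hi)), add_comm (k * L) i, Function.iterate_add_apply,
        dist_comm]
      exact (hΛ3 i hi).le
    · rw [sum_const, nsmul_eq_mul, mul_comm]
      apply mul_le_mul_of_nonneg_left _ (by positivity)
      apply Nat.cast_le.2
      simpa using card_le_card hΛ1
  linarith

variable [MeasurableSpace X] [BorelSpace X]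

def measureCenter (f : X → X) : Set X :=
  (⋃₀ {U : Set X | IsOpen U ∧
    ∀ μ : Measure X, IsProbabilityMeasure μ → MeasurePreserving f μ μ → μ U = 0})ᶜ

lemma pairs [CompactSpace X] [Nontrivial X] {f : X → X} (h : measureCenter f = Set.univ) :
    ∃ c : ℝ, 0 < c ∧ ∀ L : ℕ, ∃ u v : X, c * L ≤ ∑ i ∈ range L, dist (f^[i] u) (f^[i] v) := by
  have hm : ∀ (p : X) (r : ℝ), 0 < r → ∃ μ : Measure X, IsProbabilityMeasure μ ∧
      MeasurePreserving f μ μ ∧ μ (Metric.ball p r) ≠ 0 := by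
    intro p r hr
    by_contra hc
    push Not at hc
    have : p ∈ measureCenter f := by rw [h]; trivial
    exact this ⟨Metric.ball p r, ⟨Metric.isOpen_ball, hc⟩, Metric.mem_ball_self hr⟩
  obtain ⟨p, q, hpq⟩ := exists_pair_ne X
  have hd : 0 < dist p q := dist_pos.2 hpq
  obtain ⟨μ, hμ, hμ1, hμ2⟩ := hm p (dist p q / 2) (by positivity)
  obtain ⟨ν, hν, hν1, hν2⟩ := hm q (dist p q / 2) (by positivity)
  have hT := hμ1.prod hν1
  have hcont : Continuous (fun a : X × X => dist a.1 a.2) := continuous_dist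
  have hint : Integrable (fun a : X × X => dist a.1 a.2) (μ.prod ν) :=
    hcont.integrable_of_hasCompactSupport (HasCompactSupport.of_compactSpace _)
  refine ⟨∫ a, dist a.1 a.2 ∂(μ.prod ν), ?_, fun L => ?_⟩
  · rw [integral_pos_iff_support_of_nonneg (fun _ => dist_nonneg) hint]
    refine lt_of_lt_of_le ?_ (measure_mono (s := Metric.ball p (dist p q / 2) ×ˢ
      Metric.ball q (dist p q / 2)) ?_)
    · rw [Measure.prod_prod]
      exact ENNReal.mul_pos hμ2 hν2
    · rintro ⟨a, b⟩ ⟨h1, h2⟩ h3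
      simp only [Metric.mem_ball] at h1 h2
      have h4 : a = b := dist_eq_zero.1 h3
      subst h4
      have := dist_triangle_left p q a
      linarith
  · have hi : ∀ i : ℕ, Integrable (fun a : X × X => dist (f^[i] a.1) (f^[i] a.2)) (μ.prod ν) := by
      intro i
      have := (hT.iterate i).integrable_comp_of_integrable hint
      rw [Prod.map_iterate] at this
      exact this
    have he : ∀ i : ℕ, ∫ a, dist (f^[i] a.1) (f^[i] a.2) ∂(μ.prod ν) =
        ∫ a, dist a.1 a.2 ∂(μ.prod ν) := by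
      intro i
      have h1 := integral_map (μ := μ.prod ν) (hT.iterate i).measurable.aemeasurable
        (f := fun a : X × X => dist a.1 a.2) hcont.aestronglyMeasurable
      rw [(hT.iterate i).map_eq, Prod.map_iterate] at h1
      exact h1.symm
    obtain ⟨a, ha⟩ := exists_integral_le (μ := μ.prod ν)
      (f := fun a : X × X => ∑ i ∈ range L, dist (f^[i] a.1) (f^[i] a.2))
      (integrable_finsetSum _ (fun i _ => hi i))
    refine ⟨a.1, a.2, le_trans (le_of_eq ?_) ha⟩
    rw [integral_finsetSum _ (fun i _ => hi i)]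
    simp [he, mul_comm]

def TopMixing (f : X → X) : Prop :=
  ∀ U V : Set X, IsOpen U → U.Nonempty → IsOpen V → V.Nonempty →
    ∃ N : ℕ, ∀ n : ℕ, N ≤ n → (f^[n] '' U ∩ V).Nonempty

theorem main [CompactSpace X] (f : X → X) (hP : ASP f ∨ AASP f ∨ AlmostSpec f)
    (h : measureCenter f = Set.univ) :
    (Nontrivial X → 0 < Dynamics.coverEntropy f Set.univ) ∧
      (TopMixing f ∨ 0 < Dynamics.coverEntropy f Set.univ) := by
  have h1 : Nontrivial X → 0 < Dynamics.coverEntropy f Set.univ := by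
    intro _
    obtain ⟨c, hc, hp⟩ := pairs h
    have hD : ∀ a b : X, dist a b ≤ Metric.diam (Set.univ : Set X) + 1 := fun a b =>
      (Metric.dist_le_diam_of_mem isCompact_univ.isBounded trivial trivial).trans (by linarith)
    have hD0 : 0 < Metric.diam (Set.univ : Set X) + 1 := by
      have := Metric.diam_nonneg (s := (Set.univ : Set X))
      linarith
    refine entropy_pos ?_ hc hp
    rcases hP with hP | hP | hP
    · exact S_of_ASP hD0 hD hP
    · exact S_of_AASP hD0 hD hP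
    · exact S_of_AS hD0 hD hP
  refine ⟨h1, ?_⟩
  rcases subsingleton_or_nontrivial X with hX | hX
  · left
    rintro U V - ⟨a, ha⟩ - ⟨b, hb⟩
    exact ⟨0, fun n _ => ⟨b, ⟨a, ha, Subsingleton.elim _ _⟩, hb⟩⟩
  · exact Or.inr (h1 hX)

end Pool.Agent.H.MP_090ff9_an
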